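import Pool.Agent.Helper11.LE.Goals3
import Pool.Agent.Helper88.RD.SLG
import Pool.Agent.Helper2.LE.ST2

/-!
# Project LE, packet LE-ST1: the descent step when `K` contains the `p`-th roots of unity
-/

namespace Pool.Agent.Helper81.LE

open NumberField Polynomial Module IsDedekindDomain TensorProduct Pool.Agent.Helper51.SigLeo
open Pool.Agent.Helper51.RP Pool.Agent.Helper42.RD Pool.Agent.Helper38.RSP
open Pool.Agent.Helper11.LE Pool.Agent.Helper2.LE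

/-- Exponents smaller than `p` are determined modulo a subgroup for which `a`, `b` are independent. -/
theorem ind_of {p : ℕ} (hp : p.Prime) {G : Type} [CommGroup G] (H : Subgroup G)
    (hH : ∀ x : G, x ^ p ∈ H) {a b : G} (hab : ∀ i j : ℕ, a ^ i * b ^ j ∈ H → p ∣ i ∧ p ∣ j)
    {i j i' j' : ℕ} (hi : i < p) (hj : j < p) (hi' : i' < p) (hj' : j' < p)
    (h : a ^ i * b ^ j / (a ^ i' * b ^ j') ∈ H) : i = i' ∧ j = j' := by
  have hpow : ∀ (g : G) (m : ℕ), g ^ (p * m) = g ^ m * g ^ ((p - 1) * m) := by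
    intro g m
    rw [← pow_add]
    congr 1
    obtain ⟨q, hq⟩ : ∃ q, p = q + 1 := ⟨p - 1, by have := hp.pos; omega⟩
    rw [hq, Nat.add_sub_cancel]
    ring
  have h1 : a ^ (i + (p - 1) * i') * b ^ (j + (p - 1) * j') =
      a ^ i * b ^ j / (a ^ i' * b ^ j') * (a ^ i' * b ^ j') ^ p := by
    have e1 : (a ^ i' * b ^ j') ^ p = a ^ (p * i') * b ^ (p * j') := by
      rw [mul_pow, ← pow_mul, ← pow_mul, mul_comm i', mul_comm j']
    rw [e1, hpow, hpow, pow_add, pow_add, div_eq_mul_inv]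
    have e2 : a ^ i * b ^ j * (a ^ i' * b ^ j')⁻¹ *
        (a ^ i' * a ^ ((p - 1) * i') * (b ^ j' * b ^ ((p - 1) * j'))) =
        (a ^ i' * b ^ j') * (a ^ i' * b ^ j')⁻¹ * (a ^ i * a ^ ((p - 1) * i') *
          (b ^ j * b ^ ((p - 1) * j'))) := by ac_rfl
    rw [e2, mul_inv_cancel, one_mul]
  obtain ⟨h2, h3⟩ := hab _ _ (h1 ▸ H.mul_mem h (hH _))
  have key : ∀ i i' : ℕ, i < p → i' < p → p ∣ i + (p - 1) * i' → i = i' := by
    intro i i' hi hi' hd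
    by_contra hne
    apply nat_sub_not_dvd hi hi' hne
    have h4 : ((i + (p - 1) * i' : ℕ) : ℤ) = (i : ℤ) - i' + p * i' := by
      have hp1 := hp.pos
      push_cast [Nat.cast_sub (show 1 ≤ p from hp1)]
      ring
    have h5 : (p : ℤ) ∣ ((i + (p - 1) * i' : ℕ) : ℤ) := Int.natCast_dvd_natCast.mpr hd
    rw [h4] at h5
    exact (dvd_add_left (dvd_mul_right _ _)).mp h5
  exact ⟨key i i' hi hi' h2, key j j' hj hj' h3⟩

/-- The elements of the group generated by `a` and the `p`-th powers. -/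
theorem mem_gen {p : ℕ} (hp : p.Prime) {G : Type} [CommGroup G] {a x : G} {n : ℤ}
    (hn : ¬ (p : ℤ) ∣ n) (h : ∃ (i : ℤ) (w : G), x ^ n = a ^ i * w ^ p) :
    ∃ (i : ℕ) (w : G), x = a ^ i * w ^ p := by
  let H : Subgroup G :=
    { carrier := {g | ∃ (i : ℤ) (w : G), g = a ^ i * w ^ p}
      mul_mem' := by
        rintro _ _ ⟨i, w, rfl⟩ ⟨j, v, rfl⟩
        refine ⟨i + j, w * v, ?_⟩
        rw [zpow_add, mul_pow]
        ac_rfl
      one_mem' := ⟨0, 1, by simp⟩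
      inv_mem' := by
        rintro _ ⟨i, w, rfl⟩
        exact ⟨-i, w⁻¹, by rw [mul_inv, zpow_neg, inv_pow]⟩ }
  have hH : ∀ g : G, g ^ p ∈ H := fun g ↦ ⟨0, g, by rw [zpow_zero, one_mul]⟩
  obtain ⟨i, w, hx⟩ : x ∈ H := mem_of_zpow hp H hH hn h
  refine ⟨(i % p).toNat, a ^ (i / p) * w, ?_⟩
  have hp0 : (p : ℤ) ≠ 0 := by exact_mod_cast hp.ne_zero
  have h1 : ((i % p).toNat : ℤ) = i % p := Int.toNat_of_nonneg (Int.emod_nonneg _ hp0)
  rw [hx, ← zpow_natCast a, h1, mul_pow, ← zpow_natCast (a ^ (i / p)), ← zpow_mul, ← mul_assoc,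
    ← zpow_add]
  congr 2
  rw [mul_comm (i / (p : ℤ))]
  exact (Int.emod_add_mul_ediv i p).symm

/-- The elements of `Sel1` for the larger datum whose valuations on `Z'` are multiples of `p` are in
`Sel1` and local `p`-th powers on `Z'`. -/
theorem sel_sub' {p : ℕ} [Fact p.Prime] {k : Type} [NormedField k] {K : Type} [Field K]
    [NumberField K] (L : IwasawaLog p k) (T : Set (K →+* k)) (R : Set (HeightOneSpectrum (𝓞 K)))
    (al al' : HeightOneSpectrum (𝓞 K) → K) (Z' : Finset (HeightOneSpectrum (𝓞 K)))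
    (hZ : ∀ w ∈ Z', w ∉ R)
    (hD' : IsDat p (R ∪ (Z' : Set (HeightOneSpectrum (𝓞 K)))) al') (x : Kˣ)
    (hx : Sel1 L T (R ∪ (Z' : Set (HeightOneSpectrum (𝓞 K)))) al' x)
    (hout : ∀ w, w ∉ Z' → LocD p R al w (x : K))
    (hdv : ∀ w ∈ Z', (p : ℤ) ∣ ordv w (x : K)) :
    Sel1 L T R al x ∧ ∀ w ∈ Z', LocPow p w (x : K) := by
  have hp0 : p ≠ 0 := (Fact.out : p.Prime).ne_zero
  refine ⟨⟨fun w ↦ ?_, hx.sig⟩, fun w hw ↦ ?_⟩
  · by_cases hw : w ∈ Z'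
    · exact ⟨fun _ ↦ hdv w hw, fun hwR ↦ absurd hwR (hZ w hw)⟩
    · exact hout w hw
  · have hwR' : w ∈ R ∪ (Z' : Set (HeightOneSpectrum (𝓞 K))) := Or.inr (Finset.mem_coe.mpr hw)
    obtain ⟨i, hi⟩ := (hx.loc w).2 hwR'
    have hun : ordv w (algebraMap K K (al' w)) = 1 := hD'.unif w hwR'
    have hal0 : algebraMap K K (al' w) ≠ 0 := Pool.Agent.Helper88.RD.al_ne_zero hD' hwR'
    have he : (x : K) * (algebraMap K K (al' w)) ^ i =
        ((x * (Units.mk0 _ hal0) ^ i : Kˣ) : K) := by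
      push_cast
      rfl
    rw [he] at hi
    have hd2 := dvd_of_locPow w _ hi hp0
    have hun' : ordv w ((Units.mk0 _ hal0 : Kˣ) : K) = 1 := hun
    rw [Pool.Agent.Helper88.RD.ordv_mul, Pool.Agent.Helper88.RD.ordv_pow, hun', mul_one,
      dvd_add_right (hdv w hw)] at hd2
    obtain ⟨t, ht⟩ := Int.natCast_dvd_natCast.mp hd2
    rw [← he, ht, mul_comm p t, pow_mul] at hi
    exact Pool.Agent.Helper88.RD.locPow_mul_pow hi

theorem above_self {K : Type} [Field K] [NumberField K] {W w : HeightOneSpectrum (𝓞 K)}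
    (h : Above W w) : W = w := by
  apply HeightOneSpectrum.ext
  unfold Above at h
  rw [← h]
  ext x
  rw [Ideal.mem_comap]
  refine iff_of_eq (congrArg (· ∈ W.asIdeal) ?_)
  apply RingOfIntegers.ext
  rfl

theorem mem_locs {p : ℕ} {K : Type} [Field K] [NumberField K]
    (Z' : Finset (HeightOneSpectrum (𝓞 K))) {x : Kˣ} :
    x ∈ (⨅ w ∈ Z', locG p w) ↔ ∀ w ∈ Z', LocPow p w (x : K) := by
  simp only [Subgroup.mem_iInf, mem_locG]

/-- **LE-ST1.** -/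
theorem l_st1 (h1 : L_CYC) (h2 : L_SLG) (h3 : L_PSI) (h4 : L_CH1) (h5 : L_ADD) :
    Pool.Agent.Helper11.LE.L_ST1 := by
  classical
  intro p hpf hp2 k _ _ _ _ hne L K _ _ ε hε T hT R al a hSt hRne hG
  have hp : p.Prime := hpf.out
  have hp0 : p ≠ 0 := hp.ne_zero
  have hsub : ∀ σ : K ≃ₐ[K] K, σ = 1 := fun σ ↦ AlgEquiv.ext fun x ↦ σ.commutes x
  have hC : Cyc p K K ε := ⟨hε, inferInstance, fun σ _ ↦ hsub σ⟩
  have hnz : ∀ c : 𝓞 K, c ≠ 0 → (c : K) ≠ 0 := fun c hc h ↦ hc (RingOfIntegers.ext h)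
  have hm1 : ((-1 : K)) ^ (p - 1) ≠ 0 := pow_ne_zero _ (neg_ne_zero.mpr one_ne_zero)
  have hstar : ∀ c : 𝓞 K, c ≠ 0 → (-1 : K) ^ (p - 1) * (c : K) ≠ 0 := fun c hc ↦
    mul_ne_zero hm1 (hnz c hc)
  have hordm : ∀ (w : HeightOneSpectrum (𝓞 K)) (c : 𝓞 K) (hc : c ≠ 0),
      ordv w ((Units.mk0 _ (hstar c hc) : Kˣ) : K) = ordv w (c : K) := by
    intro w c hc
    unfold ordv
    rw [Units.val_mk0, map_mul, map_pow, Valuation.map_neg, map_one, one_pow, one_mul]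
  set x₀ : Kˣ := Units.mk0 _ (hstar a hSt.ne) with hx₀def
  have hx₀ : Sel1 L T R al x₀ := (h2 p k L K T R al hSt.dat).2 ε a x₀ hSt rfl
  obtain ⟨⟨G, hG1, hG2⟩, -⟩ := h2 p k L K T R al hSt.dat
  have hx₀p : ∀ n : ℤ, ¬ (p : ℤ) ∣ n → ¬ ∃ y : Kˣ, x₀ ^ n = y ^ p := by
    intro n hn h
    obtain ⟨y, hy⟩ := pth_of_zpow hp hn h
    obtain ⟨w, hw⟩ := hRne
    obtain ⟨W, -, hW, -⟩ := hSt.mat.ram w hw
    apply hW
    rw [← hordm W a hSt.ne, ← hx₀def, hy, Pool.Agent.Helper88.RD.ordv_pow]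
    exact dvd_mul_right _ _
  -- the element x₁
  obtain ⟨x₁, hx₁, hx₁g⟩ : ∃ x₁ : Kˣ, Sel1 L T R al x₁ ∧
      ∀ (j : ℕ) (w : Kˣ), x₁ ≠ x₀ ^ j * w ^ p := by
    unfold Good at hG
    push Not at hG
    obtain ⟨x₁, hx₁, hx⟩ := hG
    refine ⟨x₁, hx₁, fun j w h ↦ hx j w ?_⟩
    have h' : (x₁ : K) = ((-1) ^ (p - 1) * (a : K)) ^ j * (w : K) ^ p := by
      rw [h]
      push_cast
      rfl
    exact h'
  have hind : ∀ i j : ℕ, Pw p (x₀ ^ i * x₁ ^ j) → p ∣ i ∧ p ∣ j := by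
    rintro i j ⟨y, hy⟩
    have hj : p ∣ j := by
      by_contra hj
      have hj' : ¬ (p : ℤ) ∣ (j : ℤ) := fun h ↦ hj (Int.natCast_dvd_natCast.mp h)
      obtain ⟨m, w, hm⟩ := mem_gen (a := x₀) (x := x₁) hp hj' ⟨-(i : ℤ), y, by
        rw [zpow_natCast, zpow_neg, zpow_natCast, ← hy, ← mul_assoc, inv_mul_cancel, one_mul]⟩
      exact hx₁g m w hm
    refine ⟨?_, hj⟩
    by_contra hi
    have hi' : ¬ (p : ℤ) ∣ (i : ℤ) := fun h ↦ hi (Int.natCast_dvd_natCast.mp h)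
    obtain ⟨q, rfl⟩ := hj
    refine hx₀p i hi' ⟨y * (x₁ ^ q)⁻¹, ?_⟩
    rw [zpow_natCast, mul_pow, ← hy, inv_pow, ← pow_mul, mul_comm q p, mul_assoc,
      mul_inv_cancel, mul_one]
  let PG : Subgroup Kˣ :=
    { carrier := {g | Pw p g}
      mul_mem' := by
        rintro _ _ ⟨w, rfl⟩ ⟨v, rfl⟩
        exact ⟨w * v, (mul_pow _ _ _).symm⟩
      one_mem' := ⟨1, (one_pow _).symm⟩
      inv_mem' := by
        rintro _ ⟨w, rfl⟩
        exact ⟨w⁻¹, (inv_pow _ _).symm⟩ }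
  have hPG : ∀ g : Kˣ, g ^ p ∈ PG := fun g ↦ ⟨g, rfl⟩
  have hF₀ : ∃ F : Finset Kˣ, F.card = p ^ 2 ∧ Inc p (Sel1 L T R al) F := by
    refine ⟨(Finset.range p ×ˢ Finset.range p).image (fun t : ℕ × ℕ ↦ x₀ ^ t.1 * x₁ ^ t.2), ?_,
      ?_, ?_⟩
    · rw [Finset.card_image_of_injOn, Finset.card_product, Finset.card_range, sq]
      rintro ⟨i, j⟩ hs ⟨i', j'⟩ ht hst
      have hs' := Finset.mem_product.mp (Finset.mem_coe.mp hs)
      have ht' := Finset.mem_product.mp (Finset.mem_coe.mp ht)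
      have hst' : x₀ ^ i * x₁ ^ j = x₀ ^ i' * x₁ ^ j' := hst
      obtain ⟨e1, e2⟩ := ind_of hp PG hPG hind (Finset.mem_range.mp hs'.1)
        (Finset.mem_range.mp hs'.2) (Finset.mem_range.mp ht'.1) (Finset.mem_range.mp ht'.2)
        (by rw [hst', div_self']; exact PG.one_mem)
      exact Prod.ext e1 e2
    · intro x hx
      obtain ⟨⟨i, j⟩, -, rfl⟩ := Finset.mem_image.mp hx
      exact (hG1 _).mp (G.mul_mem (G.pow_mem ((hG1 _).mpr hx₀) i)
        (G.pow_mem ((hG1 _).mpr hx₁) j))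
    · intro x hx y hy hxy hpw
      obtain ⟨⟨i, j⟩, hs, rfl⟩ := Finset.mem_image.mp hx
      obtain ⟨⟨i', j'⟩, ht, rfl⟩ := Finset.mem_image.mp hy
      have hs' := Finset.mem_product.mp hs
      have ht' := Finset.mem_product.mp ht
      obtain ⟨e1, e2⟩ := ind_of hp PG hPG hind (Finset.mem_range.mp hs'.1)
        (Finset.mem_range.mp hs'.2) (Finset.mem_range.mp ht'.1) (Finset.mem_range.mp ht'.2) hpw
      apply hxy
      simp only [] at e1 e2 ⊢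
      rw [e1, e2]
  -- the rank
  have hurk : urk p K = Units.rank K + 1 := by
    unfold urk
    rw [if_pos ⟨ε, hε⟩]
  obtain ⟨S, 𝔪, ψ, hF⟩ := h3 p k hne L K T R al hSt.dat 2 2 (by rw [hurk]; omega) hF₀
  -- the element b
  have h𝔫 : Ideal.span {(p : 𝓞 K) ^ 3 * a} ≠ ⊥ := by
    rw [Ne, Ideal.span_singleton_eq_bot]
    refine mul_ne_zero (pow_ne_zero _ ?_) hSt.ne
    exact_mod_cast hp0
  obtain ⟨b, Z', hb0, hb1, hZ', hval, hrel, hbind⟩ := h4 p hp2 K ε hε x₀ x₁ hind 𝔪 ψ hF.fam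
    hF.ind _ h𝔫 S hF.fin
  have hZS : ∀ w ∈ Z', w ∉ S := fun w hw ↦ (hZ' w hw).1
  have hZR : ∀ w ∈ Z', w ∉ R ∧ w.valuation K (p : K) = 1 := by
    intro w hw
    refine ⟨fun h ↦ hZS w hw (hF.sub h), ?_⟩
    have hle : w.valuation K (p : K) ≤ 1 := by
      have h := w.valuation_le_one (K := K) (p : 𝓞 K)
      simpa using h
    exact le_antisymm hle (not_lt.mp fun h ↦ hZS w hw (hF.abp w h))
  have hfree : ∀ w : HeightOneSpectrum (𝓞 K), FreeP K w := fun w g _ ↦ hsub g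
  obtain ⟨al', hSt', hal'⟩ := h5 p K K ε hC R al a hSt b Z' hb0 hb1
    (fun τ ↦ ⟨1, 1, by rw [hsub τ, pow_one]; rfl, by rw [hsub τ, pow_one, one_pow, mul_one]; rfl⟩)
    hZR
    (fun W w hWw ↦ by
      rw [above_self hWw]
      exact ⟨fun hw ↦ ⟨hfree w, (hval w).mp hw⟩, fun hw ↦ by
        by_contra hcon
        exact hw ((hval w).mpr hcon)⟩)
  set R' : Set (HeightOneSpectrum (𝓞 K)) := R ∪ (Z' : Set (HeightOneSpectrum (𝓞 K))) with hR'
  refine ⟨R', al', a * b, hSt', Set.subset_union_left, ?_⟩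
  intro n hn F' hF'
  obtain ⟨⟨G', hG1', -⟩, hy'⟩ := h2 p k L K T R' al' hSt'.dat
  set y : Kˣ := Units.mk0 _ (hstar (a * b) hSt'.ne) with hydef
  have hy : Sel1 L T R' al' y := hy' ε (a * b) y hSt' rfl
  have hordy : ∀ w, ordv w (y : K) = ordv w (a : K) + ordv w (b : K) := by
    intro w
    rw [hydef, hordm w (a * b) hSt'.ne]
    have e : ((a * b : 𝓞 K) : K) =
        ((Units.mk0 _ (hnz a hSt.ne) * Units.mk0 _ (hnz b hb0) : Kˣ) : K) := by
      push_cast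
      rfl
    rw [e, Pool.Agent.Helper88.RD.ordv_mul]
    rfl
  have hself : ∀ w : HeightOneSpectrum (𝓞 K), Above w w := by
    intro w
    unfold Above
    ext x
    rw [Ideal.mem_comap]
    refine iff_of_eq (congrArg (· ∈ w.asIdeal) ?_)
    apply RingOfIntegers.ext
    rfl
  have horda : ∀ w ∈ Z', (p : ℤ) ∣ ordv w (a : K) := fun w hw ↦
    hSt.mat.free w w (hself w) (hfree w) (hZR w hw).1
  have hout : ∀ x : Kˣ, Sel1 L T R' al' x → ∀ w, w ∉ Z' → LocD p R al w (x : K) := by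
    intro x hx w hw
    refine ⟨fun hwR ↦ (hx.loc w).1 ?_, fun hwR ↦ ?_⟩
    · rintro (h | h)
      · exact hwR h
      · exact hw (Finset.mem_coe.mp h)
    · obtain ⟨i, hi⟩ := (hx.loc w).2 (Or.inl hwR)
      rw [hal' w hwR] at hi
      exact ⟨i, hi⟩
  -- the exponent
  have hexp : ∀ x : Kˣ, Sel1 L T R' al' x → ∃ t < p,
      Sel1 L T R al (x * (y⁻¹) ^ t) ∧ ∀ w ∈ Z', LocPow p w ((x * (y⁻¹) ^ t : Kˣ) : K) := by
    intro x hx
    obtain ⟨t, ht⟩ := hrel (fun w ↦ ((ordv w (x : K) : ℤ) : ZMod p))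
      (hF.dual x Z' hZS (hout x hx) hx.sig)
    refine ⟨t.val, ZMod.val_lt t, ?_⟩
    have hx' : Sel1 L T R' al' (x * (y⁻¹) ^ t.val) :=
      (hG1' _).mp (G'.mul_mem ((hG1' _).mpr hx) (G'.pow_mem (G'.inv_mem ((hG1' _).mpr hy)) _))
    refine sel_sub' L T R al al' Z' (fun w hw ↦ (hZR w hw).1) hSt'.dat _ hx' (hout _ hx') ?_
    intro w hw
    rw [Pool.Agent.Helper88.RD.ordv_mul, Pool.Agent.Helper88.RD.ordv_pow,
      Pool.Agent.Helper88.RD.ordv_inv, hordy w, ← ZMod.intCast_zmod_eq_zero_iff_dvd]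
    have ea : ((ordv w (a : K) : ℤ) : ZMod p) = 0 :=
      (ZMod.intCast_zmod_eq_zero_iff_dvd _ _).mpr (horda w hw)
    have ex : ((ordv w (x : K) : ℤ) : ZMod p) = t * ((ordv w (b : K) : ℤ) : ZMod p) := ht w hw
    push_cast
    rw [ex, ea, ZMod.natCast_zmod_val]
    ring
  choose! t htp htS using hexp
  -- counting
  have hH : ∀ g : Kˣ, g ^ p ∈ (⨅ w ∈ Z', locG p w) := by
    intro g
    rw [mem_locs]
    intro w _
    exact (mem_locG w).mp (pow_mem_locG w g)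
  have hH2 : ∀ i j : ℕ, x₀ ^ i * x₁ ^ j ∈ (⨅ w ∈ Z', locG p w) → p ∣ i ∧ p ∣ j := by
    intro i j h
    exact hbind i j ((mem_locs Z').mp h)
  have hcount : ∀ s < p, p ^ 2 * (F'.filter fun x ↦ t x = s).card ≤ n := by
    intro s hs
    have hinj : ∀ x ∈ F', ∀ x' ∈ F', t x = s → t x' = s → ∀ i < p, ∀ j < p, ∀ i' < p, ∀ j' < p,
        Pw p (x * (y⁻¹) ^ s * (x₀ ^ i * x₁ ^ j) / (x' * (y⁻¹) ^ s * (x₀ ^ i' * x₁ ^ j'))) →
        x = x' ∧ i = i' ∧ j = j' := by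
      rintro x hx x' hx' hxs hxs' i hi j hj i' hi' j' hj' ⟨z, hz⟩
      have m1 : x * (y⁻¹) ^ s ∈ (⨅ w ∈ Z', locG p w) := by
        rw [mem_locs, ← hxs]
        exact (htS x (hF'.1 x hx)).2
      have m2 : x' * (y⁻¹) ^ s ∈ (⨅ w ∈ Z', locG p w) := by
        rw [mem_locs, ← hxs']
        exact (htS x' (hF'.1 x' hx')).2
      have h6 : x₀ ^ i * x₁ ^ j / (x₀ ^ i' * x₁ ^ j') =
          z ^ p * (x' * (y⁻¹) ^ s) / (x * (y⁻¹) ^ s) := by
        rw [← hz]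
        generalize x₀ ^ i * x₁ ^ j = u
        generalize x₀ ^ i' * x₁ ^ j' = v
        generalize (y⁻¹) ^ s = q
        rw [div_eq_mul_inv, div_eq_mul_inv, div_eq_mul_inv, mul_inv, mul_inv, mul_inv]
        have h7 : x * q * u * (x'⁻¹ * q⁻¹ * v⁻¹) * (x' * q) * (x⁻¹ * q⁻¹) =
            (x * x⁻¹) * (q * q⁻¹) * (x' * x'⁻¹) * (q * q⁻¹) * (u * v⁻¹) := by ac_rfl
        rw [h7, mul_inv_cancel, mul_inv_cancel, mul_inv_cancel]
        simp only [one_mul]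
      obtain ⟨e1, e2⟩ := ind_of hp _ hH hH2 hi hj hi' hj' (by
        rw [h6]
        exact Subgroup.div_mem _ (Subgroup.mul_mem _ (hH z) m2) m1)
      refine ⟨?_, e1, e2⟩
      by_contra hne
      refine hF'.2 x hx x' hx' hne ⟨z, ?_⟩
      rw [← hz, e1, e2, mul_div_mul_right_eq_div, mul_div_mul_right_eq_div]
    have hcard : (((F'.filter fun x ↦ t x = s) ×ˢ (Finset.range p ×ˢ Finset.range p)).image
        fun r : Kˣ × ℕ × ℕ ↦ r.1 * (y⁻¹) ^ s * (x₀ ^ r.2.1 * x₁ ^ r.2.2)).card =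
        (F'.filter fun x ↦ t x = s).card * (p * p) := by
      rw [Finset.card_image_of_injOn, Finset.card_product, Finset.card_product,
        Finset.card_range]
      rintro ⟨x, i, j⟩ hs1 ⟨x', i', j'⟩ ht1 hst
      obtain ⟨q1, q2⟩ := Finset.mem_product.mp (Finset.mem_coe.mp hs1)
      obtain ⟨q3, q4⟩ := Finset.mem_product.mp (Finset.mem_coe.mp ht1)
      obtain ⟨q5, q6⟩ := Finset.mem_product.mp q2
      obtain ⟨q7, q8⟩ := Finset.mem_product.mp q4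
      obtain ⟨q9, q10⟩ := Finset.mem_filter.mp q1
      obtain ⟨q11, q12⟩ := Finset.mem_filter.mp q3
      have hst' : x * (y⁻¹) ^ s * (x₀ ^ i * x₁ ^ j) =
        x' * (y⁻¹) ^ s * (x₀ ^ i' * x₁ ^ j') := hst
      obtain ⟨e1, e2, e3⟩ := hinj x q9 x' q11 q10 q12 i (Finset.mem_range.mp q5) j
        (Finset.mem_range.mp q6) i' (Finset.mem_range.mp q7) j' (Finset.mem_range.mp q8)
        ⟨1, by rw [hst', div_self', one_pow]⟩
      exact Prod.ext e1 (Prod.ext e2 e3)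
    rw [sq, mul_comm, ← hcard]
    refine hn _ ⟨?_, ?_⟩
    · intro z hz
      obtain ⟨⟨x, i, j⟩, hr, rfl⟩ := Finset.mem_image.mp hz
      obtain ⟨q1, q2⟩ := Finset.mem_product.mp hr
      obtain ⟨q9, q10⟩ := Finset.mem_filter.mp q1
      have m1 : Sel1 L T R al (x * (y⁻¹) ^ s) := by
        have q10' : t x = s := q10
        rw [← q10']
        exact (htS x (hF'.1 x q9)).1
      exact (hG1 _).mp (G.mul_mem ((hG1 _).mpr m1) (G.mul_mem (G.pow_mem ((hG1 _).mpr hx₀) i)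
        (G.pow_mem ((hG1 _).mpr hx₁) j)))
    · intro z hz z' hz' hne hpw
      obtain ⟨⟨x, i, j⟩, hr, rfl⟩ := Finset.mem_image.mp hz
      obtain ⟨⟨x', i', j'⟩, hr', rfl⟩ := Finset.mem_image.mp hz'
      obtain ⟨q1, q2⟩ := Finset.mem_product.mp hr
      obtain ⟨q3, q4⟩ := Finset.mem_product.mp hr'
      obtain ⟨q5, q6⟩ := Finset.mem_product.mp q2
      obtain ⟨q7, q8⟩ := Finset.mem_product.mp q4
      obtain ⟨q9, q10⟩ := Finset.mem_filter.mp q1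
      obtain ⟨q11, q12⟩ := Finset.mem_filter.mp q3
      obtain ⟨e1, e2, e3⟩ := hinj x q9 x' q11 q10 q12 i (Finset.mem_range.mp q5) j
        (Finset.mem_range.mp q6) i' (Finset.mem_range.mp q7) j' (Finset.mem_range.mp q8) hpw
      apply hne
      simp only [] at e1 e2 e3 ⊢
      rw [e1, e2, e3]
  have hsum : F'.card = ∑ s ∈ Finset.range p, (F'.filter fun x ↦ t x = s).card :=
    Finset.card_eq_sum_card_fiberwise fun x hx ↦
      Finset.mem_coe.mpr (Finset.mem_range.mpr (htp x (hF'.1 x hx)))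
  have h8 : p ^ 2 * F'.card ≤ p * n := by
    rw [hsum, Finset.mul_sum]
    refine (Finset.sum_le_sum fun s hs ↦ hcount s (Finset.mem_range.mp hs)).trans ?_
    simp
  have h9 : p * (p * F'.card) ≤ p * n := by
    calc p * (p * F'.card) = p ^ 2 * F'.card := by ring
      _ ≤ p * n := h8
  exact Nat.le_of_mul_le_mul_left h9 hp.pos

end Pool.Agent.Helper81.LE
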